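import Pool.Agent.W206.YP.Stm

set_option autoImplicit false

namespace Pool.Agent.W648.YP.DEF

open MvPolynomial Pool.Agent.W206.YP

theorem main : S_DEF := by
  classical
  intro σ _ R
  obtain ⟨S, hS⟩ : R.FG := IsNoetherian.noetherian R
  let C : Finset ℂ := S.biUnion (fun f => f.coeffs)
  refine ⟨C.card, fun i => (C.equivFin.symm i : ℂ), fun i => ?_, fun k hk => ?_⟩
  · intro h0
    have h1 := (C.equivFin.symm i).2
    have h2 : (C.equivFin.symm i : ℂ) = 0 := h0
    rw [h2] at h1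
    obtain ⟨f, _, hf⟩ := Finset.mem_biUnion.1 h1
    exact zero_notMem_coeffs f hf
  · have hC : ∀ c ∈ C, c ∈ k := by
      intro c hc
      have := hk (C.equivFin ⟨c, hc⟩)
      simpa using this
    have hS2 : ∀ f ∈ S, f ∈ Set.range (MvPolynomial.map (σ := σ) (algebraMap k ℂ)) := by
      intro f hf
      rw [mem_range_map_iff_coeffs_subset]
      intro c hc
      exact ⟨⟨c, hC c (Finset.mem_biUnion.2 ⟨f, hf, hc⟩)⟩, rfl⟩
    refine ⟨{g | MvPolynomial.map (algebraMap k ℂ) g ∈ S}, ?_⟩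
    rw [← hS]
    congr 1
    ext f
    constructor
    · intro hf
      obtain ⟨g, hg⟩ := hS2 f hf
      exact ⟨g, by rw [Set.mem_ofPred_eq, hg]; exact hf, hg⟩
    · rintro ⟨g, hg, rfl⟩
      exact hg

end Pool.Agent.W648.YP.DEF

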